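import Pool.Agent.H3NX.FinalU
import Pool.Agent.H3NX.DistX

set_option autoImplicit false

/-!
Solutions of the unforced Navier-Stokes equations with discrete singular times near arbitrary smooth paths.

Let `w` be any `C^∞` path of periodic divergence-free fields with constant mean on `[0, T)`, `0 < T ≤ ∞`, which
solves the equations on an open set `O` of times (possibly empty, possibly `(0, ∞)`), and let `a` be any real
divergence-free datum with this mean and finite norm in `FB^{-1}_{1,r}`, `r > 2`. Then there is a solution `u` which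
starts from `a`, is `C^∞` except for a locally finite set `S` of times outside of `O`, is continuous in time in all
the critical spaces `FB^{-1}_{1,r'}`, `r' > 2`, solves the equations in the sense of distributions also across the
times of `S`, lies in `L^p` of time with values in the bounded fields for all `p < 2`, and is as near to `w` as one
likes.
-/

open MeasureTheory Set Filter Topology
open scoped ContDiff ENNReal

namespace Pool.Agent.H3NX.Out.DiscreteSingularities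

open Pool.Agent.H356R3.NS

/-- `w` is a `C^∞` path of periodic divergence-free fields with the mean `M` on `D × ℝ³`. -/
structure SmoothPath (D : Set ℝ) (w : ℝ → R3 → R3) (M : Fin 3 → ℂ) : Prop where
  smooth : ContDiffOn ℝ ∞ (fun z : ℝ × R3 => w z.1 z.2) (D ×ˢ univ)
  periodic : ∀ t ∈ D, ∀ x j, w t (x + Pi.single j 1) = w t x
  divFree : ∀ t ∈ D, ∀ x, ∑ i, pd i (fun y => w t y i) x = 0
  mean : ∀ t ∈ D, fc (w t) 0 = M

/-- `u` satisfies the unforced Navier-Stokes equations with viscosity `ν` at the times of `O`, the pressure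
`q` is periodic and `C^∞` on `O × ℝ³`. -/
structure Momentum (ν : ℝ) (O : Set ℝ) (u : ℝ → R3 → R3) (q : ℝ → R3 → ℝ) : Prop where
  smooth_q : ContDiffOn ℝ ∞ (fun z : ℝ × R3 => q z.1 z.2) (O ×ˢ univ)
  periodic_q : ∀ t ∈ O, ∀ x j, q t (x + Pi.single j 1) = q t x
  momentum : ∀ t ∈ O, ∀ x i, deriv (fun s => u s x i) t + ∑ j, u t x j * pd j (fun y => u t y i) x
    = ν * ∑ j, pd j (pd j fun y => u t y i) x - pd i (q t) x

/-- `(u, q)` is a periodic solution of the unforced Navier-Stokes equations for the times of `D`, `C^∞` for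
the times of `D \ S`; at each positive time of `D` the velocity `u` is `C^∞` from the left. -/
structure SmoothOff (ν : ℝ) (D S : Set ℝ) (u : ℝ → R3 → R3) (q : ℝ → R3 → ℝ) : Prop where
  smooth_u : ContDiffOn ℝ ∞ (fun z : ℝ × R3 => u z.1 z.2) ((D \ S) ×ˢ univ)
  solves : Momentum ν (D \ S) u q
  periodic_u : ∀ t ∈ D, 0 < t → ∀ x j, u t (x + Pi.single j 1) = u t x
  divFree : ∀ t ∈ D, 0 < t → ∀ x, ∑ i, pd i (fun y => u t y i) x = 0
  left : ∀ t ∈ D, 0 < t → ∃ α < t, ContDiffOn ℝ ∞ (fun z : ℝ × R3 => u z.1 z.2) (Ioc α t ×ˢ univ)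

/-- `∑_k (1 + |k|²)^s |v^(k)|`, a norm which controls all derivatives up to order `2 s`. -/
noncomputable def highNorm (s : ℕ) (v : R3 → R3) : ℝ≥0∞ :=
  ∑' k : Fin 3 → ℤ, ENNReal.ofReal ((1 + ∑ i, (k i : ℝ) ^ 2) ^ s) * ‖fc v k‖ₑ

/-- The norm `|a - b|` of `FB^{-1}_{1,r}` for Fourier coefficients `a`, `b` with the same mean. -/
noncomputable def critDiff (r : ℝ) (a b : (Fin 3 → ℤ) → Fin 3 → ℂ) : ℝ≥0∞ := critNorm r fun k => a k - b k

/-- `(u·∇)u + ∇q` -/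
noncomputable def nonlin (u : R3 → R3) (q : R3 → ℝ) : R3 → R3 := fun x i =>
  ∑ j, u x j * pd j (fun y => u y i) x + pd i q x

/-- The equations with the initial value `a`, integrated over `[0, t]` for all `t ∈ D`, for every Fourier
coefficient: the coefficients of the nonlinear term `(u·∇)u + ∇q` are integrable in time over `[0, t]`, with
integrals of size `O(1 + |k|)`, so the equations hold in the sense of distributions on `D × ℝ³`. -/
structure Integrated (ν : ℝ) (D : Set ℝ) (a : (Fin 3 → ℤ) → Fin 3 → ℂ) (u : ℝ → R3 → R3) (q : ℝ → R3 → ℝ) :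
    Prop where
  bound : ∀ t ∈ D, ∃ C : ℝ, ∀ k, ∫⁻ x in Ioc 0 t, ‖fc (nonlin (u x) (q x)) k‖ₑ
    ≤ ENNReal.ofReal (C * (1 + √(∑ j, (k j : ℝ) ^ 2)))
  integrable_u : ∀ t ∈ D, 0 < t → ∀ k i, IntervalIntegrable (fun x => fc (u x) k i) volume 0 t
  integrable : ∀ t ∈ D, 0 < t → ∀ k i, IntervalIntegrable (fun x => fc (nonlin (u x) (q x)) k i) volume 0 t
  equation : ∀ t ∈ D, 0 < t → ∀ k i, fc (u t) k i = a k i - ∫ x in (0 : ℝ)..t,
    (4 * Real.pi ^ 2 * ν * (∑ j, (k j : ℂ) ^ 2) * fc (u x) k i + fc (nonlin (u x) (q x)) k i)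

theorem result (ν : ℝ) (hν : 0 < ν) (D : Set ℝ) (hD : D = Ici 0 ∨ ∃ T, 0 < T ∧ D = Ico 0 T)
    (a : (Fin 3 → ℤ) → Fin 3 → ℂ) (hreal : ∀ k i, a (-k) i = star (a k i))
    (hdiv : ∀ k, ∑ i, (k i : ℂ) * a k i = 0) (r : ℝ) (hr : 2 < r) (ha : critNorm r a < ⊤)
    (w : ℝ → R3 → R3) (hw : SmoothPath D w (a 0))
    (O : Set ℝ) (hO : IsOpen O) (hOD : O ⊆ D) (q : ℝ → R3 → ℝ) (hq : Momentum ν O w q)
    (p : ℝ) (hp : 1 ≤ p ∧ p < 2) (δ : ℝ) (hδ : 0 < δ) (s : ℕ)
    (ε : ℝ → ℝ) (hε : ∀ t ∈ D, ∃ e > 0, ∀ x ∈ D, x ≤ t → e ≤ ε x)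
    (hc : (∀ t ∈ D, ∃ x ∈ D \ O, t < x) ∨ (D = Ici 0 ∧ ∃ e > 0, ∀ t ∈ D, e ≤ ε t)) :
    ∃ (S : Set ℝ) (u : ℝ → R3 → R3) (P : ℝ → R3 → ℝ),
      (0 ∈ S ∧ S ⊆ D \ O ∧ ∀ t ∈ D, (S ∩ Iic t).Finite) ∧ SmoothOff ν D S u P ∧ Integrated ν D a u P ∧
      (∀ r' : ℝ, 2 < r' → critNorm r' a < ⊤ → Tendsto (fun t => critDiff r' (fc (u t)) a) (𝓝[>] 0) (𝓝 0)) ∧
      (∀ r' : ℝ, 2 < r' → ∀ t ∈ D, 0 < t → Tendsto (fun x => critDiff r' (fc (u x)) (fc (u t))) (𝓝 t) (𝓝 0)) ∧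
      (∀ t ∈ D, 0 < t → fc (u t) 0 = a 0) ∧
      (∀ p' : ℝ, 1 ≤ p' → p' < 2 → ∀ t ∈ D, ∫⁻ x in Ioc 0 t, (⨆ y, ‖u x y‖ₑ) ^ p' < ⊤) ∧
      (∀ t ∈ D, ∫⁻ x in D ∩ Ioc t (t + 1), (⨆ y, ‖u x y - w x y‖ₑ) ^ p ≤ ENNReal.ofReal (ε t)) ∧
      (∀ t ∈ D, 0 < t → critDiff r (fc (u t)) (fc (w t)) ≤ 4 * critDiff r a (fc (w 0)) + ENNReal.ofReal (ε t)) ∧
      (∀ t ∈ D, δ ≤ t → critDiff r (fc (u t)) (fc (w t)) ≤ ENNReal.ofReal (ε t)) ∧
      ∀ t ∈ D, S ∩ Icc (t - δ) t = ∅ → highNorm s (fun x => u t x - w t x) ≤ ENNReal.ofReal (ε t) := by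
  obtain ⟨m, hm⟩ : ∃ m : E3, m = fun i => (a 0 i).re := ⟨_, rfl⟩
  have ham : ∀ i, a 0 i = (m i : ℂ) := fun i => by rw [hm]; exact X.sym_re hreal i
  have hadm : X.AdmC m r a := ⟨hreal, hdiv, ham, ha.ne⟩
  have hsub : ∀ T ∈ D, Ico 0 T ⊆ D := by
    intro T hT t ht
    rcases hD with h1 | ⟨T', -, h1⟩
    · rw [h1]; exact ht.1
    · rw [h1] at hT ⊢
      exact ⟨ht.1, ht.2.trans hT.2⟩
  have h2s : (0 : ℝ) < 2 ^ s := by positivity
  have h2s1 : (1 : ℝ) ≤ 2 ^ s := one_le_pow₀ (by norm_num)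
  obtain ⟨sq, g, δ1, e, A, U, Q, h⟩ := X.mainU (ε := fun t => ε t / 2 ^ s) (δ := min δ 1) (sN := 2 * s) hν hD hO hOD
    (fun T hT => ⟨⟨fun i => (contDiffOn_pi.1 hw.smooth i).mono (prod_mono (hsub T hT) subset_rfl),
      fun t ht => hw.periodic t (hsub T hT ht)⟩, fun t ht => hw.divFree t (hsub T hT ht), fun t ht i => by
        rw [hw.mean t (hsub T hT ht), ham]⟩)
    ⟨hq.smooth_q, hq.periodic_q, hq.momentum⟩
    (hc.imp_right fun h1 => ⟨h1.1, by
      obtain ⟨e, he, he1⟩ := h1.2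
      exact ⟨e / 2 ^ s, by positivity, fun t ht => div_le_div_of_nonneg_right (he1 t ht) h2s.le⟩⟩)
    (fun t ht => by
      obtain ⟨e, he, he1⟩ := hε t ht
      exact ⟨e / 2 ^ s, by positivity, fun x hx hxt => div_le_div_of_nonneg_right (he1 x hx hxt) h2s.le⟩)
    hr hp.1 hp.2 (lt_min hδ one_pos) (min_le_right _ _) hadm
  have hle : ∀ t ∈ D, ENNReal.ofReal (ε t / 2 ^ s) ≤ ENNReal.ofReal (ε t) := fun t ht => by
    obtain ⟨e, he, he1⟩ := hε t ht
    exact ENNReal.ofReal_le_ofReal (div_le_self (he.le.trans (he1 t ht le_rfl)) h2s1)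
  have hsu := X.glue_smooth h.gm (V := U) fun i => (h.pb i).sm_u
  have hpos : ∀ t ∈ D \ X.SB sq g, 0 < t := fun t ht => (h.gm.both ht.1 ht.2).1
  refine ⟨X.SB sq g, X.GU sq g U, X.GU sq g Q, ⟨h.gm.zero_mem, h.gm.SB_sub, fun t ht => h.gm.SB_fin ht⟩,
    ⟨hsu, ⟨X.glue_smooth h.gm (V := Q) fun i => (h.pb i).sm_p, fun t _ => (h.pb _).per_p t, fun t ht => h.mom ht⟩,
      fun t _ _ => (h.pb _).per_u t, fun t ht ht0 => h.divf ht ht0, fun t ht ht0 => ?_⟩,
    ⟨fun t ht => ?_, fun t ht ht0 k i => (h.dist hr k i ht ht0).1, fun t ht ht0 k i => (h.dist hr k i ht ht0).2.1, fun t ht ht0 k i => ?_⟩,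
    fun r' hr' ha' => h.start hr' ha'.ne, fun r' hr' t ht ht0 => h.cont ht ht0 hr', fun t ht ht0 => h.mean ht ht0,
    fun p' h1 h2 t ht => lt_top_iff_ne_top.2 (h.lq h1 h2 ht),
    fun t ht => (h.win hp.1 (min_le_right _ _) ht).trans (hle t ht),
    fun t ht ht0 => (h.cr ht ht0).trans (add_le_add le_rfl (hle t ht)),
    fun t ht htδ => (h.crd (by linarith) ht (hδ.trans_le htδ) ((min_le_left _ _).trans htδ)).trans (hle t ht),
    fun t ht hS => ?_⟩
  · obtain ⟨α, -, h1, h2⟩ := X.glue_left h.gm (V := U) (fun i => (h.pb i).sm_u) ht ht0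
    exact ⟨α, h1, h2⟩
  · obtain ⟨C, -, hC⟩ := h.nl ht
    exact ⟨C, fun k => hC k⟩
  · rw [(h.dist hr k i ht ht0).2.2]
    congr 2
    funext x
    have e1 : ((4 * Real.pi ^ 2 * ν * Pool.Agent.H356R3.NS.sq k : ℝ) : ℂ)
        = 4 * Real.pi ^ 2 * ν * (∑ j, (k j : ℂ) ^ 2) := by
      unfold Pool.Agent.H356R3.NS.sq
      push_cast
      rfl
    rw [e1]
    rfl
  · have hmem : ∀ x ∈ X.SB sq g, t - min δ 1 ≤ x → t < x := by
      intro x hx h1
      by_contra hcon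
      push Not at hcon
      have h2 : x ∈ X.SB sq g ∩ Icc (t - δ) t := ⟨hx, by have := min_le_left δ 1; linarith, hcon⟩
      rw [hS] at h2
      exact h2
    have ht0 : 0 < t := by
      refine lt_of_le_of_ne (h.gm.hD.nn t ht) fun h1 => ?_
      have h2 := hmem 0 h.gm.zero_mem (by rw [← h1]; have := lt_min hδ one_pos; linarith)
      linarith
    have h1 := h.cl ht ht0 hmem
    have hcu : Continuous (X.GU sq g U t) :=
      ((h.pb (g (X.jx sq t))).spat (h.gm.JB_pos (h.gm.mem_JB ht ht0))).continuous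
    have hcw : Continuous (w t) := by
      have := hw.smooth.continuousOn.comp_continuous (f := fun x : R3 => ((t, x) : ℝ × R3)) (by fun_prop)
        (fun x => ⟨ht, mem_univ _⟩)
      exact this
    have e1 : ∀ k, fc (fun x => X.GU sq g U t x - w t x) k = fc (X.GU sq g U t) k - fc (w t) k := fun k =>
      Pool.Agent.H3NS.fc_sub hcu hcw k
    have hεt : 0 < ε t := by
      obtain ⟨e, he, he1⟩ := hε t ht
      exact he.trans_le (he1 t ht le_rfl)
    calc highNorm s (fun x => X.GU sq g U t x - w t x)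
        ≤ ∑' k : K, ENNReal.ofReal (2 ^ s) * ((1 + ENNReal.ofReal (nk k ^ (2 * s)))
            * ‖fc (X.GU sq g U t) k - fc (w t) k‖ₑ) := by
          refine ENNReal.tsum_le_tsum fun k => ?_
          rw [e1, ← mul_assoc]
          apply mul_le_mul' _ le_rfl
          have h0 : 0 ≤ nk k ^ (2 * s) := pow_nonneg (nk_nonneg k) _
          rw [← ENNReal.ofReal_one, ← ENNReal.ofReal_add zero_le_one h0, ← ENNReal.ofReal_mul h2s.le]
          exact ENNReal.ofReal_le_ofReal (X.nk_pow_ge k s)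
      _ = ENNReal.ofReal (2 ^ s) * ∑' k : K, (1 + ENNReal.ofReal (nk k ^ (2 * s)))
            * ‖fc (X.GU sq g U t) k - fc (w t) k‖ₑ := by
          rw [ENNReal.tsum_mul_left]
      _ ≤ ENNReal.ofReal (2 ^ s) * ENNReal.ofReal (ε t / 2 ^ s / 8) := mul_le_mul' le_rfl h1
      _ ≤ _ := by
          rw [← ENNReal.ofReal_mul h2s.le]
          apply ENNReal.ofReal_le_ofReal
          have : 2 ^ s * (ε t / 2 ^ s / 8) = ε t / 8 := by field_simp
          rw [this]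
          linarith

end Pool.Agent.H3NX.Out.DiscreteSingularities
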