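import Pool.Agent.H3NX.FinalN

set_option autoImplicit false

/-!
Statement (B) with the initial datum attained in the critical Fourier-Besov norms `FB^{-1}_{1,r}`, `r > 2`.
Every real divergence-free periodic datum `a` of `FB^{-1}_{1,r}`, of any size (in particular every smooth
one), is the datum of solutions of the unforced Navier-Stokes equations which are smooth at all times
`t > 0` and lie in `L^p` of time with values in the bounded fields for all `p < 2`; they can be chosen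
arbitrarily near any given global smooth solution `v` with the same mean.
-/

open MeasureTheory Set Filter Topology
open scoped ContDiff ENNReal

namespace Pool.Agent.H3NX.Out.WildSolutions

open Pool.Agent.H356R3.NS

/-- `(u, q)` is a periodic solution of the unforced Navier-Stokes equations with viscosity `ν` which is
`C^∞` on `(0, ∞) × ℝ³`. -/
structure SmoothAfterZero (ν : ℝ) (u : ℝ → R3 → R3) (q : ℝ → R3 → ℝ) : Prop where
  smooth_u : ContDiffOn ℝ ∞ (fun z : ℝ × R3 => u z.1 z.2) (Ioi 0 ×ˢ univ)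
  smooth_q : ContDiffOn ℝ ∞ (fun z : ℝ × R3 => q z.1 z.2) (Ioi 0 ×ˢ univ)
  periodic_u : ∀ t, 0 < t → ∀ x j, u t (x + Pi.single j 1) = u t x
  periodic_q : ∀ t, 0 < t → ∀ x j, q t (x + Pi.single j 1) = q t x
  momentum : ∀ t, 0 < t → ∀ x i, deriv (fun s => u s x i) t + ∑ j, u t x j * pd j (fun y => u t y i) x
    = ν * ∑ j, pd j (pd j fun y => u t y i) x - pd i (q t) x
  divFree : ∀ t, 0 < t → ∀ x, ∑ i, pd i (fun y => u t y i) x = 0

/-- `∑_k (1 + |k|²)^s |v^(k)|`, a norm which controls all derivatives up to order `2 s`. -/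
noncomputable def highNorm (s : ℕ) (v : R3 → R3) : ℝ≥0∞ :=
  ∑' k : Fin 3 → ℤ, ENNReal.ofReal ((1 + ∑ i, (k i : ℝ) ^ 2) ^ s) * ‖fc v k‖ₑ

/-- The norm `|a - b|` of `FB^{-1}_{1,r}` for Fourier coefficients `a`, `b` with the same mean. -/
noncomputable def critDiff (r : ℝ) (a b : (Fin 3 → ℤ) → Fin 3 → ℂ) : ℝ≥0∞ := critNorm r fun k => a k - b k

theorem result (ν : ℝ) (hν : 0 < ν) (v0 : R3 → R3) (v : ℝ → R3 → R3) (q : ℝ → R3 → ℝ)
    (hv : AdmissiblePeriodic ν v0 v q)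
    (a : (Fin 3 → ℤ) → Fin 3 → ℂ) (hreal : ∀ k i, a (-k) i = star (a k i))
    (hdiv : ∀ k, ∑ i, (k i : ℂ) * a k i = 0) (hmean : a 0 = fc v0 0)
    (r : ℝ) (hr : 2 < r) (ha : critNorm r a < ⊤) (p : ℝ) (hp : 1 ≤ p ∧ p < 2) (δ ε : ℝ) (hδ : 0 < δ) (hε : 0 < ε)
    (s : ℕ) :
    ∃ (u : ℝ → R3 → R3) (P : ℝ → R3 → ℝ), SmoothAfterZero ν u P ∧
      (∀ r' : ℝ, 2 < r' → critNorm r' a < ⊤ → Tendsto (fun t => critDiff r' (fc (u t)) a) (𝓝[>] 0) (𝓝 0)) ∧
      (∀ t, 0 < t → fc (u t) 0 = a 0) ∧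
      (∀ p' : ℝ, 1 ≤ p' → p' < 2 → ∫⁻ t in Ioc 0 1, (⨆ x, ‖u t x‖ₑ) ^ p' < ⊤) ∧
      ∫⁻ t in Ioc 0 1, (⨆ x, ‖u t x - v t x‖ₑ) ^ p ≤ ENNReal.ofReal ε ∧
      (∀ t, δ ≤ t → highNorm s (fun x => u t x - v t x) ≤ ENNReal.ofReal ε) ∧
      ∀ t, 0 < t → critDiff r (fc (u t)) (fc (v t)) ≤ 4 * critDiff r a (fc v0) + ENNReal.ofReal ε := by
  obtain ⟨u, P, h1, h2, h3, h4, h5, h6, h7, h8, h9, h10, h11, -, h13⟩ :=
    X.mainS hν (X.glob_of_adm hv) hreal hdiv (by rw [hv.initial]; exact hmean) hr ha.ne hp.1 hp.2 hδ hε s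
  refine ⟨u, P, ⟨h1, h2, fun t _ => h3 t, fun t _ => h4 t, h5, h6⟩, fun r' hr' ha' => h8 r' hr' ha'.ne, h7,
    fun p' hp' hp'' => lt_top_iff_ne_top.2 (h9 p' hp' hp''), h10, h11, fun t ht => ?_⟩
  have := h13 t ht
  rw [hv.initial] at this
  exact this

end Pool.Agent.H3NX.Out.WildSolutions
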